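import Mathlib

/-!
# Discriminants of power bases and integral bases
-/

set_option autoImplicit false

open NumberField Polynomial

namespace Pool.Agent.Y67.MX

/-- a rational number which is integral at all primes is an integer -/
theorem int_of_padic (u : ℚ) (h : ∀ p : ℕ, p.Prime → padicNorm p u ≤ 1) : ∃ n : ℤ, u = n := by
  by_cases hd : u.den = 1
  · exact ⟨u.num, (Rat.coe_int_num_of_den_eq_one hd).symm⟩
  · exfalso
    obtain ⟨p, hp, hpd⟩ := Nat.exists_prime_and_dvd hd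
    haveI := Fact.mk hp
    have h1 := h p hp
    have hnum : ¬ (p : ℤ) ∣ u.num := by
      intro h2
      have h3 : p ∣ u.num.natAbs := Int.natCast_dvd.1 h2
      have h4 := Nat.dvd_gcd h3 hpd
      rw [Nat.Coprime.gcd_eq_one u.reduced] at h4
      exact hp.one_lt.ne' (Nat.dvd_one.1 h4)
    have h2 : padicNorm p (u.num : ℚ) = 1 := (padicNorm.int_eq_one_iff u.num).2 hnum
    have h3 : padicNorm p (u.den : ℚ) < 1 := (padicNorm.nat_lt_one_iff u.den).2 hpd
    have h4 : padicNorm p u * padicNorm p (u.den : ℚ) = 1 := by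
      rw [← padicNorm.mul, Rat.mul_den_eq_num, h2]
    have h5 : 0 ≤ padicNorm p (u.den : ℚ) := padicNorm.nonneg _
    nlinarith [padicNorm.nonneg (p := p) u]

/-- the part of the product formula outside a finite set of primes -/
theorem sprod (S : Finset ℕ) (hS : ∀ p ∈ S, p.Prime) (u : ℚ) (hu : u ≠ 0)
    (h : ∀ p : ℕ, p.Prime → p ∉ S → padicNorm p u ≤ 1) :
    0 ≤ Real.log |(u : ℝ)| + ∑ p ∈ S, Real.log ((padicNorm p u : ℚ) : ℝ) := by
  set m : ℚ := u * ∏ p ∈ S, padicNorm p u with hm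
  have hnz : ∀ p ∈ S, padicNorm p u ≠ 0 := fun p hp => by
    haveI := Fact.mk (hS p hp)
    exact padicNorm.nonzero hu
  have hm0 : m ≠ 0 := mul_ne_zero hu (Finset.prod_ne_zero_iff.2 hnz)
  have hint : ∃ n : ℤ, m = n := by
    apply int_of_padic
    intro q hq
    haveI := Fact.mk hq
    set av : AbsoluteValue ℚ ℚ := IsAbsoluteValue.toAbsoluteValue (padicNorm q) with hav
    have hav1 : ∀ x, av x = padicNorm q x := fun x => rfl
    rw [← hav1, hm, map_mul, map_prod]
    have h1 : ∀ p ∈ S, p ≠ q → av (padicNorm p u) = 1 := by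
      intro p hp hpq
      haveI := Fact.mk (hS p hp)
      rw [padicNorm.eq_zpow_of_nonzero hu, map_zpow₀, hav1, padicNorm.padicNorm_of_prime_of_ne
        (Ne.symm hpq), one_zpow]
    by_cases hqS : q ∈ S
    · rw [Finset.prod_eq_single q h1 (fun h => absurd hqS h), padicNorm.eq_zpow_of_nonzero hu, map_zpow₀,
        hav1, hav1, padicNorm.padicNorm_p_of_prime, padicNorm.eq_zpow_of_nonzero hu, inv_zpow, zpow_neg,
        inv_inv, inv_mul_cancel₀]
      exact zpow_ne_zero _ (by exact_mod_cast hq.ne_zero)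
    · rw [Finset.prod_eq_one (fun p hp => h1 p hp (fun h => hqS (h ▸ hp))), mul_one, hav1]
      exact h q hq hqS
  obtain ⟨n, hn⟩ := hint
  have hn0 : n ≠ 0 := by
    rintro rfl
    exact hm0 (by rw [hn]; simp)
  have h1 : (1 : ℝ) ≤ |(m : ℝ)| := by
    rw [hn]
    have := Int.one_le_abs hn0
    exact_mod_cast this
  have h2 := Real.log_nonneg h1
  have h3 : |(m : ℝ)| = |(u : ℝ)| * ∏ p ∈ S, ((padicNorm p u : ℚ) : ℝ) := by
    rw [hm]
    push_cast
    rw [abs_mul, Finset.abs_prod]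
    congr 1
    refine Finset.prod_congr rfl fun p hp => ?_
    exact abs_of_nonneg (by exact_mod_cast padicNorm.nonneg u)
  rw [h3, Real.log_mul (by simpa using hu) (Finset.prod_ne_zero_iff.2 fun p hp => by
    exact_mod_cast hnz p hp), Real.log_prod (fun p hp => by exact_mod_cast hnz p hp)] at h2
  exact h2

variable {K : Type} [Field K] [NumberField K]

/-- the power basis -/
theorem exists_pb {r : ℕ} (hr : Module.finrank ℚ K = r) {θ : K} (hθ : Algebra.adjoin ℚ {θ} = ⊤) :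
    ∃ pb : PowerBasis ℚ K, pb.gen = θ ∧ pb.dim = r := by
  have hint : IsIntegral ℚ θ := Algebra.IsIntegral.isIntegral θ
  refine ⟨PowerBasis.ofAdjoinEqTop' hint hθ, PowerBasis.ofAdjoinEqTop'_gen hint hθ, ?_⟩
  rw [← PowerBasis.finrank, hr]

theorem discr_theta {r : ℕ} (hr : Module.finrank ℚ K = r) {θ : K} (hθ : Algebra.adjoin ℚ {θ} = ⊤) :
    Algebra.discr ℚ (fun i : Fin r => θ ^ (i : ℕ)) ≠ 0 ∧
    (Algebra.discr ℚ (fun i : Fin r => θ ^ (i : ℕ)) =
      Algebra.norm ℚ (aeval θ (derivative (minpoly ℚ θ))) ∨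
    Algebra.discr ℚ (fun i : Fin r => θ ^ (i : ℕ)) =
      -Algebra.norm ℚ (aeval θ (derivative (minpoly ℚ θ)))) := by
  obtain ⟨pb, hgen, hdim⟩ := exists_pb hr hθ
  subst hdim
  have h1 : (fun i : Fin pb.dim => θ ^ (i : ℕ)) = pb.basis := by
    funext i
    rw [pb.basis_eq_pow, hgen]
  rw [h1]
  refine ⟨Algebra.discr_not_zero_of_basis ℚ _, ?_⟩
  rw [Algebra.discr_powerBasis_eq_norm, hgen]
  rcases neg_one_pow_eq_or ℚ (Module.finrank ℚ K * (Module.finrank ℚ K - 1) / 2) with h | h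
  · left
    rw [h, one_mul]
  · right
    rw [h, neg_one_mul]

/-- the minimal polynomial -/
theorem minpoly_theta {r : ℕ} (hr : Module.finrank ℚ K = r) {θ : K} (a : Fin r → ℚ)
    (ha : θ ^ r = ∑ i : Fin r, (a i : K) * θ ^ (i : ℕ)) (hθ : Algebra.adjoin ℚ {θ} = ⊤) :
    minpoly ℚ θ = X ^ r - ∑ i : Fin r, C (a i) * X ^ (i : ℕ) := by
  obtain ⟨pb, hgen, hdim⟩ := exists_pb hr hθ
  have hdeg : (minpoly ℚ θ).natDegree = r := by
    rw [← hgen, PowerBasis.natDegree_minpoly, hdim]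
  have hlt : (∑ i : Fin r, C (a i) * X ^ (i : ℕ) : ℚ[X]).degree < (r : WithBot ℕ) :=
    degree_sum_fin_lt a
  have hmon : (X ^ r - ∑ i : Fin r, C (a i) * X ^ (i : ℕ) : ℚ[X]).Monic := monic_X_pow_sub hlt
  symm
  apply minpoly.unique ℚ θ hmon
  · simp only [map_sub, map_pow, aeval_X, map_sum, map_mul, aeval_C]
    rw [ha]
    simp
  · intro q hq hq0
    rw [degree_sub_eq_left_of_degree_lt (by rw [degree_X_pow]; exact hlt), degree_X_pow]
    have := minpoly.min ℚ θ hq hq0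
    rw [degree_eq_natDegree (minpoly.ne_zero (Algebra.IsIntegral.isIntegral θ)), hdeg] at this
    exact this

theorem deriv_theta {r : ℕ} (hr : Module.finrank ℚ K = r) {θ : K} (a : Fin r → ℚ)
    (ha : θ ^ r = ∑ i : Fin r, (a i : K) * θ ^ (i : ℕ)) (hθ : Algebra.adjoin ℚ {θ} = ⊤) :
    aeval θ (derivative (minpoly ℚ θ)) =
      (r : K) * θ ^ (r - 1) - ∑ i : Fin r, ((i : ℕ) : K) * (a i : K) * θ ^ ((i : ℕ) - 1) := by
  rw [minpoly_theta hr a ha hθ]
  simp only [derivative_sub, derivative_X_pow, derivative_sum, derivative_C_mul, map_sub, map_mul, map_sum,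
    map_pow, aeval_X, aeval_C, map_natCast]
  congr 1
  refine Finset.sum_congr rfl fun i _ => ?_
  simp only [eq_ratCast, Rat.cast_natCast]
  ring

/-- the second part -/
theorem max_part (S : Finset ℕ) (hS : ∀ p ∈ S, p.Prime) {r : ℕ} (hr : Module.finrank ℚ K = r) {θ : K}
    (hθ : Algebra.adjoin ℚ {θ} = ⊤)
    (hmax : ∀ y : 𝓞 K, ∃ c : Fin r → ℚ, (∀ i p, p.Prime → p ∉ S → padicNorm p (c i) ≤ 1) ∧
        (y : K) = ∑ i : Fin r, (c i : K) * θ ^ (i : ℕ)) :
    Real.log |((Algebra.discr ℚ (fun i : Fin r => θ ^ (i : ℕ)) : ℚ) : ℝ)| +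
        ∑ p ∈ S, Real.log
          ((padicNorm p (Algebra.discr ℚ (fun i : Fin r => θ ^ (i : ℕ))) : ℚ) : ℝ) ≤
        Real.log |((NumberField.discr K : ℤ) : ℝ)| := by
  classical
  choose c hc1 hc2 using hmax
  have hcard : Fintype.card (Module.Free.ChooseBasisIndex ℤ (𝓞 K)) = r := by
    rw [← Module.finrank_eq_card_chooseBasisIndex, RingOfIntegers.rank, hr]
  let e : Fin r ≃ Module.Free.ChooseBasisIndex ℤ (𝓞 K) := (Fintype.equivFinOfCardEq hcard).symm
  let N : Matrix (Fin r) (Fin r) ℚ := Matrix.of fun j i => c (RingOfIntegers.basis K (e j)) i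
  set d := Algebra.discr ℚ (fun i : Fin r => θ ^ (i : ℕ)) with hd
  have hd0 : d ≠ 0 := (discr_theta hr hθ).1
  have hdisc : ((NumberField.discr K : ℤ) : ℚ) = N.det ^ 2 * d := by
    rw [coe_discr, hd, ← Algebra.discr_of_matrix_mulVec, ← Algebra.discr_reindex ℚ _ e.symm]
    congr 1
    funext j
    simp only [Function.comp, Equiv.symm_symm, integralBasis_apply]
    refine (hc2 (RingOfIntegers.basis K (e j))).trans ?_
    simp only [Matrix.mulVec, dotProduct, Matrix.map_apply, N, Matrix.of_apply, eq_ratCast]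
  have hD0 : ((NumberField.discr K : ℤ) : ℚ) ≠ 0 := by
    exact_mod_cast NumberField.discr_ne_zero K
  have hN0 : N.det ^ 2 ≠ 0 := by
    intro h
    rw [h, zero_mul] at hdisc
    exact hD0 hdisc
  have hNint : ∀ p : ℕ, p.Prime → p ∉ S → padicNorm p (N.det ^ 2) ≤ 1 := by
    intro p hp hpS
    haveI := Fact.mk hp
    set av : AbsoluteValue ℚ ℚ := IsAbsoluteValue.toAbsoluteValue (padicNorm p) with hav
    have hav1 : ∀ x, av x = padicNorm p x := fun x => rfl
    have h1 : padicNorm p N.det ≤ 1 := by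
      rw [Matrix.det_apply]
      refine padicNorm.sum_le' ?_ zero_le_one
      intro σ _
      rw [Units.smul_def, zsmul_eq_mul, padicNorm.mul]
      refine mul_le_one₀ (padicNorm.of_int _) (padicNorm.nonneg _) ?_
      rw [← hav1, map_prod]
      refine Finset.prod_le_one (fun i _ => av.nonneg _) fun i _ => ?_
      rw [hav1]
      exact hc1 _ _ _ hp hpS
    rw [← hav1, map_pow, hav1]
    exact pow_le_one₀ (padicNorm.nonneg _) h1
  have h1 := sprod S hS (N.det ^ 2) hN0 hNint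
  -- the integer
  have h2 : ∀ p ∈ S, Real.log ((padicNorm p (N.det ^ 2) : ℚ) : ℝ) + Real.log ((padicNorm p d : ℚ) : ℝ) ≤ 0 := by
    intro p hp
    haveI := Fact.mk (hS p hp)
    have h3 : ((padicNorm p (N.det ^ 2) : ℚ) : ℝ) ≠ 0 := by exact_mod_cast padicNorm.nonzero hN0
    have h4 : ((padicNorm p d : ℚ) : ℝ) ≠ 0 := by exact_mod_cast padicNorm.nonzero hd0
    rw [← Real.log_mul h3 h4, ← Rat.cast_mul, ← padicNorm.mul, ← hdisc]
    refine Real.log_nonpos (by exact_mod_cast padicNorm.nonneg _) ?_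
    exact_mod_cast padicNorm.of_int _
  have h5 : Real.log |((NumberField.discr K : ℤ) : ℝ)| = Real.log |((N.det ^ 2 : ℚ) : ℝ)| + Real.log |(d : ℝ)| := by
    have h6 : ((NumberField.discr K : ℤ) : ℝ) = ((N.det ^ 2 : ℚ) : ℝ) * (d : ℝ) := by
      rw [← Rat.cast_mul, ← hdisc]
      simp
    rw [h6, abs_mul, Real.log_mul]
    · rw [abs_ne_zero]
      exact_mod_cast hN0
    · rw [abs_ne_zero]
      exact_mod_cast hd0
  have h6 := Finset.sum_nonpos h2
  rw [Finset.sum_add_distrib] at h6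
  rw [h5]
  linarith

end Pool.Agent.Y67.MX
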