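import Pool.Agent.Y67.MX.Base

/-!
# The discriminant of a basis and the discriminant of the field
-/

set_option autoImplicit false

open NumberField Polynomial

namespace Pool.Agent.Y67.MX

variable {K : Type} [Field K] [NumberField K]

/-- the case of a maximal order, with a general basis -/
theorem max_gen (S : Finset ℕ) (hS : ∀ p ∈ S, p.Prime) {r : ℕ} (hr : Module.finrank ℚ K = r)
    (w : Fin r → K) (hw : Algebra.discr ℚ w ≠ 0)
    (hmax : ∀ y : 𝓞 K, ∃ c : Fin r → ℚ, (∀ i p, p.Prime → p ∉ S → padicNorm p (c i) ≤ 1) ∧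
        (y : K) = ∑ i : Fin r, (c i : K) * w i) :
    Real.log |((Algebra.discr ℚ w : ℚ) : ℝ)| +
        ∑ p ∈ S, Real.log
          ((padicNorm p (Algebra.discr ℚ w) : ℚ) : ℝ) ≤
        Real.log |((NumberField.discr K : ℤ) : ℝ)| := by
  classical
  choose c hc1 hc2 using hmax
  have hcard : Fintype.card (Module.Free.ChooseBasisIndex ℤ (𝓞 K)) = r := by
    rw [← Module.finrank_eq_card_chooseBasisIndex, RingOfIntegers.rank, hr]
  let e : Fin r ≃ Module.Free.ChooseBasisIndex ℤ (𝓞 K) := (Fintype.equivFinOfCardEq hcard).symm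
  let N : Matrix (Fin r) (Fin r) ℚ := Matrix.of fun j i => c (RingOfIntegers.basis K (e j)) i
  set d := Algebra.discr ℚ w with hd
  have hd0 : d ≠ 0 := hw
  have hdisc : ((NumberField.discr K : ℤ) : ℚ) = N.det ^ 2 * d := by
    rw [coe_discr, hd, ← Algebra.discr_of_matrix_mulVec, ← Algebra.discr_reindex ℚ _ e.symm]
    congr 1
    funext j
    simp only [Function.comp, Equiv.symm_symm, integralBasis_apply]
    refine (hc2 (RingOfIntegers.basis K (e j))).trans ?_
    simp only [Matrix.mulVec, dotProduct, Matrix.map_apply, N, Matrix.of_apply, eq_ratCast]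
  have hD0 : ((NumberField.discr K : ℤ) : ℚ) ≠ 0 := by
    exact_mod_cast NumberField.discr_ne_zero K
  have hN0 : N.det ^ 2 ≠ 0 := by
    intro h
    rw [h, zero_mul] at hdisc
    exact hD0 hdisc
  have hNint : ∀ p : ℕ, p.Prime → p ∉ S → padicNorm p (N.det ^ 2) ≤ 1 := by
    intro p hp hpS
    haveI := Fact.mk hp
    set av : AbsoluteValue ℚ ℚ := IsAbsoluteValue.toAbsoluteValue (padicNorm p) with hav
    have hav1 : ∀ x, av x = padicNorm p x := fun x => rfl
    have h1 : padicNorm p N.det ≤ 1 := by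
      rw [Matrix.det_apply]
      refine padicNorm.sum_le' ?_ zero_le_one
      intro σ _
      rw [Units.smul_def, zsmul_eq_mul, padicNorm.mul]
      refine mul_le_one₀ (padicNorm.of_int _) (padicNorm.nonneg _) ?_
      rw [← hav1, map_prod]
      refine Finset.prod_le_one (fun i _ => av.nonneg _) fun i _ => ?_
      rw [hav1]
      exact hc1 _ _ _ hp hpS
    rw [← hav1, map_pow, hav1]
    exact pow_le_one₀ (padicNorm.nonneg _) h1
  have h1 := sprod S hS (N.det ^ 2) hN0 hNint
  -- the integer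
  have h2 : ∀ p ∈ S, Real.log ((padicNorm p (N.det ^ 2) : ℚ) : ℝ) + Real.log ((padicNorm p d : ℚ) : ℝ) ≤ 0 := by
    intro p hp
    haveI := Fact.mk (hS p hp)
    have h3 : ((padicNorm p (N.det ^ 2) : ℚ) : ℝ) ≠ 0 := by exact_mod_cast padicNorm.nonzero hN0
    have h4 : ((padicNorm p d : ℚ) : ℝ) ≠ 0 := by exact_mod_cast padicNorm.nonzero hd0
    rw [← Real.log_mul h3 h4, ← Rat.cast_mul, ← padicNorm.mul, ← hdisc]
    refine Real.log_nonpos (by exact_mod_cast padicNorm.nonneg _) ?_
    exact_mod_cast padicNorm.of_int _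
  have h5 : Real.log |((NumberField.discr K : ℤ) : ℝ)| = Real.log |((N.det ^ 2 : ℚ) : ℝ)| + Real.log |(d : ℝ)| := by
    have h6 : ((NumberField.discr K : ℤ) : ℝ) = ((N.det ^ 2 : ℚ) : ℝ) * (d : ℝ) := by
      rw [← Rat.cast_mul, ← hdisc]
      simp
    rw [h6, abs_mul, Real.log_mul]
    · rw [abs_ne_zero]
      exact_mod_cast hN0
    · rw [abs_ne_zero]
      exact_mod_cast hd0
  have h6 := Finset.sum_nonpos h2
  rw [Finset.sum_add_distrib] at h6
  rw [h5]
  linarith

end Pool.Agent.Y67.MX
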